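import Mathlib

/-!
# Distinct multinomial coefficients versus restricted partitions

`M(n) < p*(n)` for `n = 10^6 K^2`, `K` large.
-/

open Finset Filter Topology

namespace Pool.Agent.Results.MP_f0b429_co.Disproof

/-- number of distinct multinomial coefficients -/
noncomputable def M (n : ℕ) : ℕ :=
  {v : ℕ | ∃ s : Multiset ℕ, s.sum = n ∧ v = n.factorial / (s.map Nat.factorial).prod}.ncard

/-- number of partitions of `n` whose parts are at most `6` or multiples of `3` -/
noncomputable def pstar (n : ℕ) : ℕ :=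
  Nat.card {p : Nat.Partition n // ∀ i ∈ p.parts, i ≤ 6 ∨ 3 ∣ i}

/-! ### Valuations -/

/-- product of factorials -/
def pr (s : Multiset ℕ) : ℕ := (s.map Nat.factorial).prod

/-- valuation of the product of factorials -/
noncomputable def V (p : ℕ) (s : Multiset ℕ) : ℕ := (pr s).factorization p

/-- valuation of a factorial -/
noncomputable def vf (p i : ℕ) : ℕ := (i.factorial).factorization p

lemma pr_ne (s : Multiset ℕ) : pr s ≠ 0 := by
  unfold pr
  rw [Ne, Multiset.prod_eq_zero_iff]
  intro h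
  rw [Multiset.mem_map] at h
  obtain ⟨i, -, hi⟩ := h
  exact Nat.factorial_ne_zero i hi

lemma V_eq (p : ℕ) (s : Multiset ℕ) : V p s = (s.map (vf p)).sum := by
  induction s using Multiset.induction with
  | empty => simp [V, pr]
  | cons a s ih =>
    have h : pr (a ::ₘ s) = a.factorial * pr s := by simp [pr]
    rw [V, h, Nat.factorization_mul (Nat.factorial_ne_zero a) (pr_ne s), Finsupp.add_apply,
      Multiset.map_cons, Multiset.sum_cons, ← ih]
    rfl

lemma vf_eq {p : ℕ} (hp : p.Prime) (i : ℕ) : vf p i = padicValNat p i.factorial :=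
  Nat.factorization_def _ hp

lemma vf_anti {p q : ℕ} (hp : p.Prime) (hq : q.Prime) (hpq : p ≤ q) (i : ℕ) : vf q i ≤ vf p i := by
  haveI := Fact.mk hp
  haveI := Fact.mk hq
  have hlog : ∀ r, r.Prime → Nat.log r i < i + 1 := fun r _ => by
    have := Nat.log_le_self r i
    omega
  rw [vf_eq hp, vf_eq hq, padicValNat_factorial (hlog p hp), padicValNat_factorial (hlog q hq)]
  apply Finset.sum_le_sum
  intro j _
  apply Nat.div_le_div_left (Nat.pow_le_pow_left hpq j)
  exact pow_pos hp.pos j

lemma sub_one_mul_vf {p : ℕ} (hp : p.Prime) (i : ℕ) : (p - 1) * vf p i ≤ i := by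
  haveI := Fact.mk hp
  rw [vf_eq hp, sub_one_mul_padicValNat_factorial]
  exact Nat.sub_le _ _

lemma vf_zero {p i : ℕ} (hp : p.Prime) (hi : i < p) : vf p i = 0 := by
  unfold vf
  apply Nat.factorization_eq_zero_of_not_dvd
  intro h
  rw [hp.dvd_factorial] at h
  omega

lemma sum_map_le {s : Multiset ℕ} (f : ℕ → ℕ) (c : ℕ) (h : ∀ i, c * f i ≤ i) :
    c * (s.map f).sum ≤ s.sum := by
  induction s using Multiset.induction with
  | empty => simp
  | cons a s ih =>
    rw [Multiset.map_cons, Multiset.sum_cons, Multiset.sum_cons, mul_add]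
    exact Nat.add_le_add (h a) ih

lemma sub_one_mul_V {p : ℕ} (hp : p.Prime) (s : Multiset ℕ) : (p - 1) * V p s ≤ s.sum := by
  rw [V_eq]
  exact sum_map_le _ _ (sub_one_mul_vf hp)

lemma V_le {p : ℕ} (hp : p.Prime) (s : Multiset ℕ) : V p s ≤ s.sum := by
  have h := sub_one_mul_V hp s
  have h2 := hp.two_le
  have h3 : 1 ≤ p - 1 := by omega
  nlinarith

lemma V_anti {p q : ℕ} (hp : p.Prime) (hq : q.Prime) (hpq : p ≤ q) (s : Multiset ℕ) :
    V q s ≤ V p s := by
  rw [V_eq, V_eq]
  apply Multiset.sum_map_le_sum_map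
  intro i _
  exact vf_anti hp hq hpq i

lemma V_filter {p y : ℕ} (hp : p.Prime) (hy : y < p) (s : Multiset ℕ) :
    V p s = V p (s.filter (fun i => y < i)) := by
  rw [V_eq, V_eq]
  induction s using Multiset.induction with
  | empty => simp
  | cons a s ih =>
    rw [Multiset.map_cons, Multiset.sum_cons, ih]
    by_cases ha : y < a
    · rw [Multiset.filter_cons_of_pos _ ha, Multiset.map_cons, Multiset.sum_cons]
    · rw [Multiset.filter_cons_of_neg _ ha, vf_zero hp (by omega), zero_add]

lemma count_mul_le (u : Multiset ℕ) (i : ℕ) : u.count i * i ≤ u.sum := by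
  induction u using Multiset.induction with
  | empty => simp
  | cons a u ih =>
    rw [Multiset.count_cons, Multiset.sum_cons]
    split_ifs with h
    · subst h
      nlinarith
    · rw [add_zero]
      omega

/-! ### The data attached to a product -/

section
variable (n y1 y2 E : ℕ)

/-- large multiplicities -/
abbrev F3 := {c : ↥(Finset.Ioc y2 n) → Fin (n + 1) //
  ∑ i : ↥(Finset.Ioc y2 n), (i : ℕ) * (c i : ℕ) ≤ n}

/-- middle primes -/
def Q2 : Finset ℕ := (Nat.primesLE y2).filter (fun p => y1 < p)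

/-- the data -/
abbrev Dat := (↥(Nat.primesLE y1) → Fin (n + 1)) × Sym (Fin (E + 1)) (Q2 y1 y2).card × F3 n y2

lemma sum_count_le {s : Multiset ℕ} (hs : s.sum = n) :
    ∑ i : ↥(Finset.Ioc y2 n), (i : ℕ) * min (s.count (i : ℕ)) n ≤ n := by
  classical
  have h1 : ∑ i : ↥(Finset.Ioc y2 n), (i : ℕ) * min (s.count (i : ℕ)) n ≤
      ∑ i ∈ Finset.Ioc y2 n, i * s.count i := by
    rw [← Finset.sum_coe_sort (Finset.Ioc y2 n) (fun i => i * s.count i)]
    apply Finset.sum_le_sum
    intro i _
    exact Nat.mul_le_mul_left _ (min_le_left _ _)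
  refine h1.trans ?_
  conv_rhs => rw [← hs, Finset.sum_multiset_count]
  simp only [smul_eq_mul]
  have h2 : ∑ i ∈ Finset.Ioc y2 n, i * s.count i =
      ∑ i ∈ (Finset.Ioc y2 n).filter (fun i => i ∈ s), i * s.count i := by
    rw [Finset.sum_filter]
    apply Finset.sum_congr rfl
    intro i _
    split_ifs with h
    · rfl
    · rw [Multiset.count_eq_zero.mpr h, mul_zero]
  rw [h2]
  calc ∑ i ∈ (Finset.Ioc y2 n).filter (fun i => i ∈ s), i * s.count i
      = ∑ i ∈ (Finset.Ioc y2 n).filter (fun i => i ∈ s), s.count i * i :=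
        Finset.sum_congr rfl (fun i _ => mul_comm _ _)
    _ ≤ ∑ i ∈ s.toFinset, s.count i * i := by
        apply Finset.sum_le_sum_of_subset
        intro i hi
        rw [Finset.mem_filter] at hi
        rw [Multiset.mem_toFinset]
        exact hi.2

/-- the data of a multiset with sum `n` -/
noncomputable def dat (s : Multiset ℕ) (hs : s.sum = n) : Dat n y1 y2 E :=
  (fun p => ⟨min (V p s) n, by omega⟩,
    ⟨(Q2 y1 y2).val.map (fun p => (⟨min (V p s) E, by omega⟩ : Fin (E + 1))), by
      rw [Multiset.card_map]; rfl⟩,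
    ⟨fun i => ⟨min (s.count (i : ℕ)) n, by omega⟩, sum_count_le n y2 hs⟩)

/-- thresholds determine a monotone function -/
lemma anti_le {Q : Finset ℕ} {f g : ℕ → ℕ} (hf : ∀ p ∈ Q, ∀ q ∈ Q, p ≤ q → f q ≤ f p)
    (hg : ∀ p ∈ Q, ∀ q ∈ Q, p ≤ q → g q ≤ g p) (h : Q.val.map f = Q.val.map g) :
    ∀ p ∈ Q, f p ≤ g p := by
  classical
  intro p hp
  by_contra hcon
  push Not at hcon
  have h1 : ∀ u : ℕ → ℕ, ((Q.val.map u).filter (fun t => f p ≤ t)).card =
      (Q.filter (fun q => f p ≤ u q)).card := by
    intro u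
    rw [Multiset.filter_map, Multiset.card_map]
    rfl
  have h2 : (Q.filter (fun q => f p ≤ f q)).card = (Q.filter (fun q => f p ≤ g q)).card := by
    rw [← h1, ← h1, h]
  have h3 : (Q.filter (fun q => f p ≤ g q)) ⊂ (Q.filter (fun q => f p ≤ f q)) := by
    refine ⟨?_, ?_⟩
    · intro q hq
      rw [Finset.mem_filter] at hq ⊢
      refine ⟨hq.1, ?_⟩
      rcases le_total p q with hpq | hpq
      · have := hg p hp q hq.1 hpq
        omega
      · exact hf q hq.1 p hp hpq
    · intro hsub
      have := hsub (Finset.mem_filter.mpr ⟨hp, le_refl _⟩)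
      rw [Finset.mem_filter] at this
      omega
  have h4 := Finset.card_lt_card h3
  omega

lemma dat_inj (hy : y1 ≤ y2) (hE : n ≤ E * y1) (hy1 : 1 ≤ y1) {s s' : Multiset ℕ} (hs : s.sum = n)
    (hs' : s'.sum = n) (h : dat n y1 y2 E s hs = dat n y1 y2 E s' hs') : pr s = pr s' := by
  classical
  have h1 := congrArg Prod.fst h
  have h23 := congrArg Prod.snd h
  have h2 := congrArg Prod.fst h23
  have h3 := congrArg Prod.snd h23
  apply Nat.eq_of_factorization_eq (pr_ne s) (pr_ne s')
  intro p
  by_cases hp : p.Prime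
  · show V p s = V p s'
    rcases Nat.lt_or_ge y1 p with hp1 | hp1
    · rcases Nat.lt_or_ge y2 p with hp2 | hp2
      · -- large primes
        rw [V_filter hp hp2, V_filter hp hp2 s']
        congr 1
        ext i
        rw [Multiset.count_filter, Multiset.count_filter]
        split_ifs with hi
        · by_cases hin : i ≤ n
          · have h4 := congrFun (congrArg Subtype.val h3) ⟨i, by rw [Finset.mem_Ioc]; exact ⟨hi, hin⟩⟩
            have h5 : min (s.count i) n = min (s'.count i) n := congrArg Fin.val h4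
            have hc : ∀ u : Multiset ℕ, u.sum = n → u.count i ≤ n := by
              intro u hu
              have h6 : u.count i * i ≤ u.sum := count_mul_le u i
              rw [hu] at h6
              nlinarith
            rw [min_eq_left (hc s hs), min_eq_left (hc s' hs')] at h5
            exact h5
          · have hc : ∀ u : Multiset ℕ, u.sum = n → u.count i = 0 := by
              intro u hu
              rw [Multiset.count_eq_zero]
              intro hiu
              have := Multiset.single_le_sum (s := u) (fun _ _ => Nat.zero_le _) i hiu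
              omega
            rw [hc s hs, hc s' hs']
        · rfl
      · -- middle primes
        have hVE : ∀ q ∈ Q2 y1 y2, ∀ u : Multiset ℕ, u.sum = n → V q u ≤ E := by
          intro q hq u hu
          rw [Q2, Finset.mem_filter, Nat.mem_primesLE] at hq
          have h6 := sub_one_mul_V hq.1.2 u
          rw [hu] at h6
          have h7 : y1 ≤ q - 1 := by omega
          by_contra hcon
          push Not at hcon
          have : (E + 1) * y1 ≤ (q - 1) * V q u := by
            calc (E + 1) * y1 ≤ V q u * (q - 1) := Nat.mul_le_mul hcon h7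
              _ = (q - 1) * V q u := mul_comm _ _
          nlinarith
        have h4 : (Q2 y1 y2).val.map (fun p => (⟨min (V p s) E, by omega⟩ : Fin (E + 1))) =
            (Q2 y1 y2).val.map (fun p => (⟨min (V p s') E, by omega⟩ : Fin (E + 1))) :=
          congrArg Subtype.val h2
        have h5 := congrArg (Multiset.map (fun x : Fin (E + 1) => (x : ℕ))) h4
        rw [Multiset.map_map, Multiset.map_map] at h5
        have h6 : (Q2 y1 y2).val.map (fun p => V p s) = (Q2 y1 y2).val.map (fun p => V p s') := by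
          have e : ∀ u : Multiset ℕ, u.sum = n → (Q2 y1 y2).val.map
              ((fun x : Fin (E + 1) => (x : ℕ)) ∘
                fun p => (⟨min (V p u) E, by omega⟩ : Fin (E + 1))) =
              (Q2 y1 y2).val.map (fun p => V p u) := by
            intro u hu
            apply Multiset.map_congr rfl
            intro q hq
            exact min_eq_left (hVE q hq u hu)
          rw [e s hs, e s' hs'] at h5
          exact h5
        have hanti : ∀ u : Multiset ℕ, ∀ p ∈ Q2 y1 y2, ∀ q ∈ Q2 y1 y2, p ≤ q → V q u ≤ V p u := by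
          intro u a ha b hb hab
          rw [Q2, Finset.mem_filter, Nat.mem_primesLE] at ha hb
          exact V_anti ha.1.2 hb.1.2 hab u
        have hpQ : p ∈ Q2 y1 y2 := by
          rw [Q2, Finset.mem_filter, Nat.mem_primesLE]
          exact ⟨⟨hp2, hp⟩, hp1⟩
        apply le_antisymm
        · exact anti_le (hanti s) (hanti s') h6 p hpQ
        · exact anti_le (hanti s') (hanti s) h6.symm p hpQ
    · -- small primes
      have h4 := congrFun h1 ⟨p, by rw [Nat.mem_primesLE]; exact ⟨hp1, hp⟩⟩
      have h5 : min (V p s) n = min (V p s') n := congrArg Fin.val h4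
      have e1 := V_le hp s
      have e2 := V_le hp s'
      rw [hs] at e1
      rw [hs'] at e2
      rwa [min_eq_left e1, min_eq_left e2] at h5
  · rw [Nat.factorization_eq_zero_of_not_prime _ hp, Nat.factorization_eq_zero_of_not_prime _ hp]

end

lemma M_le (n y1 y2 E : ℕ) (hy : y1 ≤ y2) (hE : n ≤ E * y1) (hy1 : 1 ≤ y1) :
    M n ≤ Fintype.card (Dat n y1 y2 E) := by
  classical
  unfold M
  rw [← Nat.card_coe_set_eq, ← Nat.card_eq_fintype_card]
  set A := {v : ℕ | ∃ s : Multiset ℕ, s.sum = n ∧ v = n.factorial / (s.map Nat.factorial).prod}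
  have hA : ∀ v : A, ∃ s : Multiset ℕ, s.sum = n ∧
      (v : ℕ) = n.factorial / (s.map Nat.factorial).prod := fun v => v.2
  choose s hs1 hs2 using hA
  apply Nat.card_le_card_of_injective (fun v : A => dat n y1 y2 E (s v) (hs1 v))
  intro v w h
  apply Subtype.ext
  rw [hs2 v, hs2 w]
  have := dat_inj n y1 y2 E hy hE hy1 (hs1 v) (hs1 w) h
  unfold pr at this
  rw [this]

/-! ### Bounds -/

lemma card_F3_le (n y2 : ℕ) {x : ℝ} (hx0 : 0 < x) (hx1 : x < 1) :
    (Fintype.card (F3 n y2) : ℝ) ≤ (x ^ n)⁻¹ * ∏ i : ↥(Finset.Ioc y2 n), (1 - x ^ (i : ℕ))⁻¹ := by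
  classical
  have hxn : 0 < x ^ n := by positivity
  have h1 : (Fintype.card (F3 n y2) : ℝ) ≤ ∑ c : ↥(Finset.Ioc y2 n) → Fin (n + 1),
      (x ^ n)⁻¹ * ∏ i : ↥(Finset.Ioc y2 n), (x ^ (i : ℕ)) ^ (c i : ℕ) := by
    rw [Fintype.card_subtype, Finset.card_filter]
    push_cast
    apply Finset.sum_le_sum
    intro c _
    have hprod : ∏ i : ↥(Finset.Ioc y2 n), (x ^ (i : ℕ)) ^ (c i : ℕ) =
        x ^ (∑ i : ↥(Finset.Ioc y2 n), (i : ℕ) * (c i : ℕ)) := by
      rw [← Finset.prod_pow_eq_pow_sum]
      apply Finset.prod_congr rfl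
      intro i _
      rw [pow_mul]
    rw [hprod]
    split_ifs with h
    · rw [← div_eq_inv_mul, le_div_iff₀ hxn, one_mul]
      exact pow_le_pow_of_le_one hx0.le hx1.le h
    · positivity
  refine h1.trans ?_
  rw [← Finset.mul_sum]
  apply mul_le_mul_of_nonneg_left _ (by positivity)
  have h2 : ∑ c : ↥(Finset.Ioc y2 n) → Fin (n + 1),
      ∏ i : ↥(Finset.Ioc y2 n), (x ^ (i : ℕ)) ^ (c i : ℕ) =
      ∏ i : ↥(Finset.Ioc y2 n), ∑ j : Fin (n + 1), (x ^ (i : ℕ)) ^ (j : ℕ) := by
    have := Finset.prod_univ_sum (fun _ : ↥(Finset.Ioc y2 n) => (Finset.univ : Finset (Fin (n + 1))))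
      (fun i j => (x ^ (i : ℕ)) ^ (j : ℕ))
    rw [this, Fintype.piFinset_univ]
  rw [h2]
  apply Finset.prod_le_prod
  · intro i _
    positivity
  · intro i _
    have hi : 0 < (i : ℕ) := by
      have := i.2
      rw [Finset.mem_Ioc] at this
      omega
    have hxi : x ^ (i : ℕ) < 1 := pow_lt_one₀ hx0.le hx1 hi.ne'
    have hxi0 : 0 ≤ x ^ (i : ℕ) := by positivity
    rw [Fin.sum_univ_eq_sum_range (fun j => (x ^ (i : ℕ)) ^ j)]
    rw [← tsum_geometric_of_lt_one hxi0 hxi]
    exact Summable.sum_le_tsum _ (fun _ _ => by positivity) (summable_geometric_of_lt_one hxi0 hxi)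

lemma inv_le_exp {t : ℝ} (h0 : 0 ≤ t) (h1 : t ≤ 1 / 2) : (1 - t)⁻¹ ≤ Real.exp (2 * t) := by
  rw [inv_le_iff_one_le_mul₀ (by linarith)]
  have := Real.add_one_le_exp (2 * t)
  nlinarith

/-- `F3` bound with `x = exp (-1/s)` -/
lemma card_F3_exp (n y2 : ℕ) {s : ℝ} (hs : 1 ≤ s) (hy : s ≤ y2) :
    (Fintype.card (F3 n y2) : ℝ) ≤ Real.exp (n / s + 2 * (s + 1) * Real.exp (-(y2 / s))) := by
  classical
  set x := Real.exp (-(1 / s)) with hx
  have hs0 : 0 < s := by linarith
  have hx0 : 0 < x := Real.exp_pos _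
  have hx1 : x < 1 := by
    rw [hx, Real.exp_lt_one_iff]
    have : 0 < 1 / s := by positivity
    linarith
  have hpow : ∀ m : ℕ, x ^ m = Real.exp (-(m / s)) := by
    intro m
    rw [hx, ← Real.exp_nat_mul]
    congr 1
    ring
  refine (card_F3_le n y2 hx0 hx1).trans ?_
  have h1 : (x ^ n)⁻¹ = Real.exp (n / s) := by
    rw [hpow, ← Real.exp_neg, neg_neg]
  have hinv : (1 - x)⁻¹ ≤ s + 1 := by
    have e1 : x ≤ 1 / (1 + 1 / s) := by
      rw [hx, Real.exp_neg, one_div (1 + 1 / s)]
      apply inv_anti₀ (by positivity)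
      have := Real.add_one_le_exp (1 / s)
      linarith
    have e2 : 1 / (s + 1) ≤ 1 - x := by
      have : 1 / (1 + 1 / s) = 1 - 1 / (s + 1) := by
        field_simp
        ring
      linarith
    rw [inv_le_comm₀ (by linarith) (by linarith)]
    rw [one_div] at e2
    exact e2
  have h2 : ∏ i : ↥(Finset.Ioc y2 n), (1 - x ^ (i : ℕ))⁻¹ ≤
      Real.exp (∑ i : ↥(Finset.Ioc y2 n), 2 * x ^ (i : ℕ)) := by
    rw [Real.exp_sum]
    apply Finset.prod_le_prod
    · intro i _
      have hi : 0 < (i : ℕ) := by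
        have := i.2
        rw [Finset.mem_Ioc] at this
        omega
      have hxi : x ^ (i : ℕ) < 1 := pow_lt_one₀ hx0.le hx1 hi.ne'
      have : 0 < 1 - x ^ (i : ℕ) := by linarith
      positivity
    · intro i _
      apply inv_le_exp (by positivity)
      have hi := i.2
      rw [Finset.mem_Ioc] at hi
      have e1 : x ^ (i : ℕ) ≤ x ^ y2 := pow_le_pow_of_le_one hx0.le hx1.le hi.1.le
      have e2 : x ^ y2 ≤ Real.exp (-1) := by
        rw [hpow]
        apply Real.exp_le_exp.mpr
        rw [neg_le_neg_iff, le_div_iff₀ hs0]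
        linarith
      have e3 : Real.exp (-1) ≤ 1 / 2 := by
        rw [Real.exp_neg, inv_eq_one_div]
        apply one_div_le_one_div_of_le (by norm_num)
        have := Real.add_one_le_exp (1 : ℝ)
        linarith
      linarith
  have h3 : ∑ i : ↥(Finset.Ioc y2 n), 2 * x ^ (i : ℕ) ≤ 2 * (s + 1) * Real.exp (-(y2 / s)) := by
    rw [Finset.sum_coe_sort (Finset.Ioc y2 n) (fun i => 2 * x ^ i), ← Finset.mul_sum, mul_assoc]
    apply mul_le_mul_of_nonneg_left _ (by norm_num)
    rw [← hpow]
    have e1 : ∑ i ∈ Finset.Ioc y2 n, x ^ i ≤ ∑ i ∈ Finset.Ico y2 (n + 1), x ^ i := by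
      apply Finset.sum_le_sum_of_subset_of_nonneg
      · intro i hi
        rw [Finset.mem_Ioc] at hi
        rw [Finset.mem_Ico]
        omega
      · intro i _ _
        positivity
    have e2 : ∑ i ∈ Finset.Ico y2 (n + 1), x ^ i ≤ x ^ y2 * (1 - x)⁻¹ := by
      rw [Finset.sum_Ico_eq_sum_range, ← tsum_geometric_of_lt_one hx0.le hx1]
      simp_rw [pow_add]
      rw [← Finset.mul_sum]
      apply mul_le_mul_of_nonneg_left _ (by positivity)
      exact Summable.sum_le_tsum _ (fun _ _ => by positivity) (summable_geometric_of_lt_one hx0.le hx1)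
    calc ∑ i ∈ Finset.Ioc y2 n, x ^ i ≤ x ^ y2 * (1 - x)⁻¹ := e1.trans e2
      _ ≤ x ^ y2 * (s + 1) := mul_le_mul_of_nonneg_left hinv (by positivity)
      _ = (s + 1) * x ^ y2 := mul_comm _ _
  rw [h1, Real.exp_add]
  apply mul_le_mul_of_nonneg_left _ (by positivity)
  exact h2.trans (Real.exp_le_exp.mpr h3)

lemma choose_le_aux (a b : ℕ) (hb : b ≤ a) {x : ℝ} (hx : 0 < x) :
    (a.choose b : ℝ) ≤ Real.exp (a * x) * (1 / x) ^ b := by
  have h1 : (a.choose b : ℝ) * x ^ b ≤ (1 + x) ^ a := by
    rw [add_comm, add_pow]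
    have : (a.choose b : ℝ) * x ^ b = x ^ b * 1 ^ (a - b) * (a.choose b : ℝ) := by
      rw [one_pow]; ring
    rw [this]
    exact Finset.single_le_sum (f := fun m => x ^ m * 1 ^ (a - m) * (a.choose m : ℝ))
      (fun _ _ => by positivity) (Finset.mem_range.mpr (by omega))
  have h2 : (1 + x) ^ a ≤ Real.exp (a * x) := by
    rw [Real.exp_nat_mul]
    apply pow_le_pow_left₀ (by positivity)
    have := Real.add_one_le_exp x
    linarith
  have h3 : (a.choose b : ℝ) = (a.choose b : ℝ) * x ^ b * (1 / x) ^ b := by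
    rw [mul_assoc, ← mul_pow, mul_one_div_cancel hx.ne', one_pow, mul_one]
  rw [h3]
  apply mul_le_mul_of_nonneg_right (h1.trans h2) (by positivity)

/-! ### The lower bound for `p*` -/

lemma pstar_ge (n k : ℕ) (hk : ∑ i ∈ range k, 3 * (i + 3) ≤ n) : 2 ^ k ≤ pstar n := by
  classical
  have hcard : Nat.card ↥((range k).powerset) = 2 ^ k := by
    rw [Nat.card_eq_fintype_card, Fintype.card_coe, Finset.card_powerset, Finset.card_range]
  rw [← hcard, pstar]
  have hsum : ∀ T : ↥((range k).powerset), ∑ i ∈ T.1, 3 * (i + 3) ≤ n := by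
    intro T
    refine le_trans ?_ hk
    exact Finset.sum_le_sum_of_subset (Finset.mem_powerset.mp T.2)
  apply Nat.card_le_card_of_injective (fun T : ↥((range k).powerset) =>
    (⟨⟨T.1.val.map (fun i => 3 * (i + 3)) + Multiset.replicate (n - ∑ i ∈ T.1, 3 * (i + 3)) 1, by
      intro j hj
      rw [Multiset.mem_add, Multiset.mem_map] at hj
      rcases hj with ⟨i, -, rfl⟩ | hj
      · omega
      · rw [Multiset.eq_of_mem_replicate hj]
        exact Nat.one_pos, by
      rw [Multiset.sum_add, Multiset.sum_replicate, smul_eq_mul, mul_one]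
      have := hsum T
      change ∑ i ∈ T.1, 3 * (i + 3) + _ = n
      omega⟩, by
      intro j hj
      simp only [Multiset.mem_add, Multiset.mem_map] at hj
      rcases hj with ⟨i, -, rfl⟩ | hj
      · right
        exact ⟨i + 3, rfl⟩
      · left
        rw [Multiset.eq_of_mem_replicate hj]
        omega⟩ : {p : Nat.Partition n // ∀ i ∈ p.parts, i ≤ 6 ∨ 3 ∣ i}))
  intro T U h
  have h1 := congrArg (fun q => Nat.Partition.parts q.1) h
  simp only at h1
  apply Subtype.ext
  ext i
  have h2 : ∀ W : ↥((range k).powerset), i ∈ W.1 ↔ 3 * (i + 3) ∈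
      W.1.val.map (fun i => 3 * (i + 3)) + Multiset.replicate (n - ∑ i ∈ W.1, 3 * (i + 3)) 1 := by
    intro W
    rw [Multiset.mem_add, Multiset.mem_map]
    constructor
    · intro hi
      left
      exact ⟨i, hi, rfl⟩
    · rintro (⟨j, hj, hji⟩ | hj)
      · have : j = i := by omega
        rw [← this]; exact hj
      · have := Multiset.eq_of_mem_replicate hj
        omega
  rw [h2 T, h2 U, h1]

lemma sum_arith (k : ℕ) : 2 * ∑ i ∈ range k, 3 * (i + 3) = 3 * k ^ 2 + 15 * k := by
  induction k with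
  | zero => simp
  | succ k ih =>
    rw [Finset.sum_range_succ, mul_add, ih]
    ring

/-- `M(n) ≥ p*(n)` fails for all `n = 10^6 K^2` with `K` large. -/
theorem result : ∀ᶠ K : ℕ in atTop, M (1000000 * K ^ 2) < pstar (1000000 * K ^ 2) := by
  have hlog4 : Real.log 4 < 1.3863 := by
    have : (4 : ℝ) = 2 ^ 2 := by norm_num
    rw [this, Real.log_pow]
    have := Real.log_two_lt_d9
    push_cast
    linarith
  have hcheb := Chebyshev.eventually_primeCounting_le (ε := 0.1) (by norm_num)
  have t1 : Tendsto (fun K : ℕ => 20 * (K : ℝ)) atTop atTop :=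
    tendsto_natCast_atTop_atTop.const_mul_atTop (by norm_num)
  have t2 : Tendsto (fun K : ℕ => 200000 * (K : ℝ)) atTop atTop :=
    tendsto_natCast_atTop_atTop.const_mul_atTop (by norm_num)
  have t3 : Tendsto (fun K : ℕ => Real.log (200000 * (K : ℝ))) atTop atTop :=
    Real.tendsto_log_atTop.comp t2
  filter_upwards [t1.eventually hcheb, t2.eventually hcheb, t3.eventually_ge_atTop 300000,
    eventually_ge_atTop 200] with K h1 h2 h3 hK
  have hK0 : (200 : ℝ) ≤ K := by exact_mod_cast hK
  set n := 1000000 * K ^ 2 with hn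
  have f1 : ⌊(20 * (K : ℝ))⌋₊ = 20 * K := by
    have : (20 * (K : ℝ)) = ((20 * K : ℕ) : ℝ) := by push_cast; ring
    rw [this, Nat.floor_natCast]
  have f2 : ⌊(200000 * (K : ℝ))⌋₊ = 200000 * K := by
    have : (200000 * (K : ℝ)) = ((200000 * K : ℕ) : ℝ) := by push_cast; ring
    rw [this, Nat.floor_natCast]
  rw [f1] at h1
  rw [f2] at h2
  have hlog20 : 1 ≤ Real.log (20 * (K : ℝ)) := by
    rw [Real.le_log_iff_exp_le (by linarith)]
    have := Real.exp_one_lt_d9
    linarith
  -- number of small primes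
  have c1 : (((Nat.primesLE (20 * K)).card : ℕ) : ℝ) ≤ 30 * K / Real.log (20 * (K : ℝ)) := by
    rw [Nat.primesLE_card_eq_primeCounting]
    refine h1.trans ?_
    apply div_le_div_of_nonneg_right _ (by linarith)
    nlinarith
  have c2 : (Q2 (20 * K) (200000 * K)).card ≤ K := by
    have e1 : (Q2 (20 * K) (200000 * K)).card ≤ (Nat.primesLE (200000 * K)).card :=
      Finset.card_filter_le _ _
    rw [Nat.primesLE_card_eq_primeCounting] at e1
    refine e1.trans ?_
    have e2 : (Real.log 4 + 0.1) * (200000 * (K : ℝ)) / Real.log (200000 * (K : ℝ)) ≤ K := by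
      rw [div_le_iff₀ (by linarith)]
      nlinarith
    exact_mod_cast h2.trans e2
  have hM := M_le n (20 * K) (200000 * K) (50000 * K) (by omega)
    (by rw [hn]; apply le_of_eq; ring) (by omega)
  have hcard : (Fintype.card (Dat n (20 * K) (200000 * K) (50000 * K)) : ℝ) =
      ((n : ℝ) + 1) ^ (Nat.primesLE (20 * K)).card *
      (((50000 * K + (Q2 (20 * K) (200000 * K)).card).choose (Q2 (20 * K) (200000 * K)).card : ℕ) *
        (Fintype.card (F3 n (200000 * K)) : ℝ)) := by
    rw [Fintype.card_prod, Fintype.card_prod, Fintype.card_fun, Fintype.card_fin,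
      Fintype.card_coe, Sym.card_sym_fin_eq_multichoose, Nat.multichoose_eq]
    have e : 50000 * K + 1 + (Q2 (20 * K) (200000 * K)).card - 1 =
        50000 * K + (Q2 (20 * K) (200000 * K)).card := by omega
    rw [e]
    push_cast
    ring
  -- first factor
  have b1 : ((n : ℝ) + 1) ^ (Nat.primesLE (20 * K)).card ≤ Real.exp (90 * K) := by
    have e1 : ((n : ℝ) + 1) ≤ (20 * (K : ℝ)) ^ 3 := by
      rw [hn]
      push_cast
      nlinarith [pow_pos (show (0 : ℝ) < K by linarith) 2]
    have e2 : ((n : ℝ) + 1) ≤ Real.exp (3 * Real.log (20 * (K : ℝ))) := by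
      have : Real.exp (3 * Real.log (20 * (K : ℝ))) = (20 * (K : ℝ)) ^ 3 := by
        have h := Real.exp_nat_mul (Real.log (20 * (K : ℝ))) 3
        push_cast at h
        rw [h, Real.exp_log (by linarith)]
      rw [this]
      exact e1
    calc ((n : ℝ) + 1) ^ (Nat.primesLE (20 * K)).card
        ≤ (Real.exp (3 * Real.log (20 * (K : ℝ)))) ^ (Nat.primesLE (20 * K)).card :=
          pow_le_pow_left₀ (by positivity) e2 _
      _ = Real.exp ((Nat.primesLE (20 * K)).card * (3 * Real.log (20 * (K : ℝ)))) := by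
          rw [Real.exp_nat_mul]
      _ ≤ Real.exp (90 * K) := by
          apply Real.exp_le_exp.mpr
          have e3 := mul_le_mul_of_nonneg_right c1
            (show (0 : ℝ) ≤ 3 * Real.log (20 * (K : ℝ)) by linarith)
          have e4 : 30 * K / Real.log (20 * (K : ℝ)) * (3 * Real.log (20 * (K : ℝ))) = 90 * K := by
            have : Real.log (20 * (K : ℝ)) ≠ 0 := by linarith
            rw [div_mul_eq_mul_div, div_eq_iff this]
            ring
          linarith
  -- second factor
  have b2 : (((50000 * K + (Q2 (20 * K) (200000 * K)).card).choose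
      (Q2 (20 * K) (200000 * K)).card : ℕ) : ℝ) ≤ Real.exp (58 * K) := by
    have e1 := choose_le_aux (50000 * K + (Q2 (20 * K) (200000 * K)).card)
      (Q2 (20 * K) (200000 * K)).card (by omega) (x := 1 / 1000) (by norm_num)
    refine e1.trans ?_
    have e2 : (((50000 * K + (Q2 (20 * K) (200000 * K)).card : ℕ) : ℝ)) * (1 / 1000) ≤ 51 * K := by
      have : (((Q2 (20 * K) (200000 * K)).card : ℕ) : ℝ) ≤ K := by exact_mod_cast c2
      push_cast
      linarith
    have e3 : (1 / (1 / 1000) : ℝ) ^ (Q2 (20 * K) (200000 * K)).card ≤ Real.exp (7 * K) := by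
      have e4 : (1 / (1 / 1000) : ℝ) = 1000 := by norm_num
      rw [e4]
      have e5 : (1000 : ℝ) ≤ Real.exp 7 := by
        have h := Real.exp_nat_mul (1 : ℝ) 7
        push_cast at h
        rw [mul_one] at h
        rw [h]
        have h2 := Real.exp_one_gt_d9
        calc (1000 : ℝ) ≤ 2.7182818283 ^ 7 := by norm_num
          _ ≤ Real.exp 1 ^ 7 := pow_le_pow_left₀ (by norm_num) h2.le 7
      calc (1000 : ℝ) ^ (Q2 (20 * K) (200000 * K)).card ≤ 1000 ^ K :=
            pow_le_pow_right₀ (by norm_num) c2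
        _ ≤ (Real.exp 7) ^ K := pow_le_pow_left₀ (by norm_num) e5 K
        _ = Real.exp (7 * K) := by
            rw [← Real.exp_nat_mul]
            congr 1
            ring
    calc _ ≤ Real.exp (51 * K) * Real.exp (7 * K) := by
          apply mul_le_mul (Real.exp_le_exp.mpr e2) e3 (by positivity) (by positivity)
      _ = Real.exp (58 * K) := by
          rw [← Real.exp_add]
          congr 1
          ring
  -- third factor
  have b3 : (Fintype.card (F3 n (200000 * K)) : ℝ) ≤ Real.exp (91 * K) := by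
    have e1 := card_F3_exp n (200000 * K) (s := 20000 * (K : ℝ)) (by linarith)
      (by push_cast; linarith)
    refine e1.trans (Real.exp_le_exp.mpr ?_)
    have hKne : (K : ℝ) ≠ 0 := by linarith
    have e2 : (n : ℝ) / (20000 * (K : ℝ)) = 50 * K := by
      rw [hn, div_eq_iff (by positivity)]
      push_cast
      ring
    have e3 : (((200000 * K : ℕ) : ℝ)) / (20000 * (K : ℝ)) = 10 := by
      rw [div_eq_iff (by positivity)]
      push_cast
      ring
    have e4 : Real.exp (-10) ≤ 1 / 1000 := by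
      rw [Real.exp_neg, inv_eq_one_div]
      apply one_div_le_one_div_of_le (by norm_num)
      have h := Real.exp_nat_mul (1 : ℝ) 10
      push_cast at h
      rw [mul_one] at h
      rw [h]
      have h2 := Real.exp_one_gt_d9
      calc (1000 : ℝ) ≤ 2.7182818283 ^ 10 := by norm_num
        _ ≤ Real.exp 1 ^ 10 := pow_le_pow_left₀ (by norm_num) h2.le 10
    rw [e2, e3]
    have e5 : 2 * (20000 * (K : ℝ) + 1) * Real.exp (-10) ≤ 2 * (20000 * (K : ℝ) + 1) * (1 / 1000) :=
      mul_le_mul_of_nonneg_left e4 (by linarith)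
    linarith
  have hMreal : (M n : ℝ) ≤ Real.exp (239 * K) := by
    calc (M n : ℝ) ≤ (Fintype.card (Dat n (20 * K) (200000 * K) (50000 * K)) : ℝ) := by
          exact_mod_cast hM
      _ ≤ Real.exp (90 * K) * (Real.exp (58 * K) * Real.exp (91 * K)) := by
          rw [hcard]
          apply mul_le_mul b1 _ (by positivity) (by positivity)
          exact mul_le_mul b2 b3 (by positivity) (by positivity)
      _ = Real.exp (239 * K) := by
          rw [← Real.exp_add, ← Real.exp_add]
          congr 1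
          ring
  have hp := pstar_ge n (500 * K) (by
    have h4 := sum_arith (500 * K)
    have h5 : 3 * (500 * K) ^ 2 + 15 * (500 * K) ≤ 2 * n := by
      rw [hn]
      nlinarith
    omega)
  have hpreal : (2 : ℝ) ^ (500 * K) ≤ (pstar n : ℝ) := by exact_mod_cast hp
  have h6 : Real.exp (239 * K) < (2 : ℝ) ^ (500 * K) := by
    have e1 : (2 : ℝ) ^ (500 * K) = Real.exp ((500 * K : ℕ) * Real.log 2) := by
      rw [Real.exp_nat_mul, Real.exp_log (by norm_num)]
    rw [e1]
    apply Real.exp_lt_exp.mpr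
    have := Real.log_two_gt_d9
    push_cast
    nlinarith
  exact_mod_cast (hMreal.trans_lt h6).trans_le hpreal

end Pool.Agent.Results.MP_f0b429_co.Disproof
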